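import Pool.Agent.Helper10.AB.GoalsF5

/-!
# Project AB (MP_1ef41b_an), packet MH1: `S_PVL → S_MH1`
-/

open MeasureTheory Set Filter Topology
open scoped ContDiff

noncomputable section

namespace Pool.Agent.Helper9.AB.MH1

open Pool.Agent.Helper24.AB Pool.Agent.Helper10.AB

/-- The square `[0,2π)²`. -/
def T2 : Set (Fin 2 → ℝ) := Set.pi Set.univ fun _ => Set.Ico 0 (2 * Real.pi)

theorem pre_T3 (j : Fin 3) :
    (MeasurableEquiv.piFinSuccAbove (fun _ : Fin 3 => ℝ) j).symm ⁻¹' T3 =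
      (Set.Ico 0 (2 * Real.pi)) ×ˢ T2 := by
  ext ⟨t, θ⟩
  simp only [T3, T2, Set.mem_preimage, Set.mem_pi, Set.mem_univ, forall_true_left, Set.mem_prod]
  rw [Fin.forall_iff_succAbove j]
  simp [MeasurableEquiv.piFinSuccAbove]

/-- Fubini on the cube, the coordinate `j` inside. -/
theorem fub (j : Fin 3) (G : (Fin 3 → ℝ) → ℂ) (hG : Continuous G) :
    ∫ θ in T3, G θ = ∫ θ' in T2, ∫ t in (0:ℝ)..(2 * Real.pi), G (j.insertNth t θ') := by
  have e := volume_preserving_piFinSuccAbove (fun _ : Fin 3 => ℝ) j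
  have h1 := e.symm.setIntegral_preimage_emb
    (MeasurableEquiv.piFinSuccAbove (fun _ : Fin 3 => ℝ) j).symm.measurableEmbedding G T3
  rw [← h1, pre_T3 j]
  have hc : Continuous (fun y : ℝ × (Fin 2 → ℝ) => G (j.insertNth y.1 y.2)) := by
    apply hG.comp
    exact Continuous.finInsertNth j continuous_fst continuous_snd
  have hi : Integrable (fun y : ℝ × (Fin 2 → ℝ) => G (j.insertNth y.1 y.2))
      ((volume.restrict (Set.Ico 0 (2 * Real.pi))).prod (volume.restrict T2)) := by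
    rw [Measure.prod_restrict, ← Measure.volume_eq_prod]
    have hK : IsCompact ((Set.Icc 0 (2 * Real.pi)) ×ˢ
        (Set.pi Set.univ fun _ : Fin 2 => Set.Icc 0 (2 * Real.pi)) : Set (ℝ × (Fin 2 → ℝ))) :=
      isCompact_Icc.prod (isCompact_univ_pi fun _ => isCompact_Icc)
    have h2 : IntegrableOn (fun y : ℝ × (Fin 2 → ℝ) => G (j.insertNth y.1 y.2))
        ((Set.Icc 0 (2 * Real.pi)) ×ˢ
        (Set.pi Set.univ fun _ : Fin 2 => Set.Icc 0 (2 * Real.pi))) volume :=
      hc.continuousOn.integrableOn_compact hK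
    apply h2.mono_set
    apply Set.prod_mono Set.Ico_subset_Icc_self
    exact Set.pi_mono fun _ _ => Set.Ico_subset_Icc_self
  have h3 : ∫ y in (Set.Ico 0 (2 * Real.pi)) ×ˢ T2,
      G ((MeasurableEquiv.piFinSuccAbove (fun _ : Fin 3 => ℝ) j).symm y) =
      ∫ y, G (j.insertNth y.1 y.2)
        ∂((volume.restrict (Set.Ico 0 (2 * Real.pi))).prod (volume.restrict T2)) := by
    rw [Measure.prod_restrict, ← Measure.volume_eq_prod]
    rfl
  rw [h3, integral_prod_symm _ hi]
  congr 1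
  funext θ'
  rw [intervalIntegral.integral_of_le (by positivity), integral_Ico_eq_integral_Ioc]

/-- the exponential `e^{-J·Z}` -/
def EJ (J : Fin 3 → ℤ) (P : V4) : ℂ :=
  Complex.exp (-((J 0 : ℂ) * P 0 + (J 1 : ℂ) * P 1 + (J 2 : ℂ) * P 2))

theorem EJ_diff (J : Fin 3 → ℤ) : Differentiable ℂ (EJ J) := by
  unfold EJ
  fun_prop

theorem mh_eq (h : V4 → ℂ) (J : Fin 3 → ℤ) (X : Fin 3 → ℝ) (w : ℂ) :
    mh h J X w = (((2 * Real.pi) ^ 3)⁻¹ : ℝ) * ∫ θ in T3, h (Pz X θ w) * EJ J (Pz X θ w) := by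
  have key : ∀ θ : Fin 3 → ℝ, h (Pz X θ w) * EJ J (Pz X θ w) =
      (Real.exp (-(Jd J X)) : ℂ) * (h (Pz X θ w) * Complex.exp (-(Complex.I * (Jd J θ : ℝ)))) := by
    intro θ
    have : EJ J (Pz X θ w) = (Real.exp (-(Jd J X)) : ℂ) *
        Complex.exp (-(Complex.I * (Jd J θ : ℝ))) := by
      rw [Complex.ofReal_exp, ← Complex.exp_add]
      unfold EJ Pz Jd
      congr 1
      simp only [Matrix.cons_val_zero, Matrix.cons_val_one, Matrix.cons_val, Complex.mk_eq_add_mul_I]
      push_cast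
      ring
    rw [this]; ring
  simp_rw [key]
  rw [integral_const_mul]
  unfold mh tm
  ring

/-- membership depends on the real parts and on `w` only -/
theorem mem_congr {a A : ℝ} {s : ℝ → ℝ} {p : ℂ → ℝ} {P P' : V4} (h0 : (P 0).re = (P' 0).re)
    (h1 : (P 1).re = (P' 1).re) (h2 : (P 2).re = (P' 2).re) (h3 : P 3 = P' 3) :
    P ∈ Omt a A s p ↔ P' ∈ Omt a A s p := by
  unfold Omt rfun ypf ymf xp xm x0
  simp only [Set.mem_ofPred_eq]
  rw [h0, h1, h2, h3]

theorem Pz_mem {a A : ℝ} {s : ℝ → ℝ} {p : ℂ → ℝ} {X : Fin 3 → ℝ} {w : ℂ} (θ : Fin 3 → ℝ) :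
    Pz X θ w ∈ Omt a A s p ↔ X ∈ Gw a A s p w := by
  unfold Gw
  rw [Set.mem_ofPred_eq]
  apply mem_congr <;> simp [Pz]

/-- the slice -/
theorem Pz_insert (j : Fin 3) (X : Fin 3 → ℝ) (w : ℂ) (θ' : Fin 2 → ℝ) (x t : ℝ) :
    Pz (Function.update X j x) (j.insertNth t θ') w =
      Function.update (Pz X (j.insertNth 0 θ') w) j.castSucc (x + t * Complex.I) := by
  fin_cases j
  · funext i
    fin_cases i <;> simp [Pz, Complex.mk_eq_add_mul_I, Function.update] <;> rfl
  · funext i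
    fin_cases i <;> simp [Pz, Complex.mk_eq_add_mul_I, Function.update] <;> rfl
  · funext i
    fin_cases i <;> simp [Pz, Complex.mk_eq_add_mul_I, Function.update] <;> rfl

/-- openness of the fibre in one coordinate -/
theorem open_slice (a A : ℝ) (s : ℝ → ℝ) (p : ℂ → ℝ) (w : ℂ) : IsOpen (Gw a A s p w) := by
  have h : Gw a A s p w = {X : Fin 3 → ℝ | |w.re| < 3 * a / 2} ∩
      {X | rfun a A s p (![(X 0 : ℂ), (X 1 : ℂ), (X 2 : ℂ), w] : V4) < 0} := by
    ext X
    simp [Gw, Omt]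
  rw [h]
  apply IsOpen.inter isOpen_const
  apply isOpen_lt _ continuous_const
  unfold rfun ypf ymf xp xm x0
  simp only [Matrix.cons_val_zero, Matrix.cons_val_one, Matrix.cons_val, Complex.ofReal_re]
  fun_prop

theorem tE_single (j : Fin 3) (P : V4) : tE (Pi.single j 1) P =
    Function.update P j.castSucc (P j.castSucc + 2 * Real.pi * Complex.I) := by
  fin_cases j <;> funext i <;> fin_cases i <;> simp [tE, Function.update]

theorem EJ_tE (J k : Fin 3 → ℤ) (P : V4) : EJ J (tE k P) = EJ J P := by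
  unfold EJ tE
  simp only [Matrix.cons_val_zero, Matrix.cons_val_one, Matrix.cons_val]
  have h : -((J 0 : ℂ) * (P 0 + 2 * Real.pi * Complex.I * k 0) +
      (J 1 : ℂ) * (P 1 + 2 * Real.pi * Complex.I * k 1) +
      (J 2 : ℂ) * (P 2 + 2 * Real.pi * Complex.I * k 2)) =
      -((J 0 : ℂ) * P 0 + (J 1 : ℂ) * P 1 + (J 2 : ℂ) * P 2) +
      ((-(J 0 * k 0 + J 1 * k 1 + J 2 * k 2) : ℤ) : ℂ) * (2 * Real.pi * Complex.I) := by
    push_cast; ring
  rw [h, Complex.exp_add, Complex.exp_int_mul_two_pi_mul_I, mul_one]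

theorem mh1 (hPVL : S_PVL) : S_MH1 := by
  intro a A δ₀ ρ₀ s p B _ h hh hinv J w j X x' _ hx
  rw [mh_eq, mh_eq]
  congr 1
  have hxX : X ∈ Gw a A s p w := by
    have := hx (X j) Set.left_mem_uIcc
    rwa [Function.update_eq_self] at this
  have hX' : Function.update X j x' ∈ Gw a A s p w := hx x' Set.right_mem_uIcc
  -- continuity
  have hcont : ∀ Y : Fin 3 → ℝ, Y ∈ Gw a A s p w →
      Continuous (fun θ : Fin 3 → ℝ => h (Pz Y θ w) * EJ J (Pz Y θ w)) := by
    intro Y hY
    have hP : Continuous (fun θ : Fin 3 → ℝ => Pz Y θ w) := by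
      unfold Pz
      simp only [Complex.mk_eq_add_mul_I]
      fun_prop
    have h1 : Continuous (fun θ : Fin 3 → ℝ => h (Pz Y θ w)) :=
      hh.continuousOn.comp_continuous hP (fun θ => (Pz_mem θ).2 hY)
    exact h1.mul ((EJ_diff J).continuous.comp hP)
  rw [fub j _ (hcont _ hX'), fub j _ (hcont _ hxX)]
  congr 1
  funext θ'
  -- the one dimensional problem
  set P₀ : V4 := Pz X (j.insertNth 0 θ') w with hP₀
  set F : ℂ → ℂ := fun z => h (Function.update P₀ j.castSucc z) *
    EJ J (Function.update P₀ j.castSucc z) with hF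
  -- the open interval
  obtain ⟨x₁, x₂, hx1, hx2, hx3, hx4, hI⟩ : ∃ x₁ x₂ : ℝ, x₁ < X j ∧ X j < x₂ ∧ x₁ < x' ∧ x' < x₂ ∧
      ∀ x, x₁ < x → x < x₂ → Function.update X j x ∈ Gw a A s p w := by
    have hU : IsOpen {x : ℝ | Function.update X j x ∈ Gw a A s p w} :=
      (open_slice a A s p w).preimage (continuous_const.update j continuous_id)
    rw [Metric.isOpen_iff] at hU
    obtain ⟨ε₁, hε₁, h1⟩ := hU (min (X j) x') (hx _ ⟨le_rfl, min_le_max⟩)
    obtain ⟨ε₂, hε₂, h2⟩ := hU (max (X j) x') (hx _ ⟨min_le_max, le_rfl⟩)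
    refine ⟨min (X j) x' - ε₁, max (X j) x' + ε₂, ?_, ?_, ?_, ?_, ?_⟩
    · linarith [min_le_left (X j) x']
    · linarith [le_max_left (X j) x']
    · linarith [min_le_right (X j) x']
    · linarith [le_max_right (X j) x']
    · intro x hx1 hx2
      by_cases c1 : x < min (X j) x'
      · apply h1
        rw [Metric.mem_ball, Real.dist_eq, abs_lt]
        constructor <;> linarith
      · by_cases c2 : max (X j) x' < x
        · apply h2
          rw [Metric.mem_ball, Real.dist_eq, abs_lt]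
          constructor <;> linarith
        · exact hx x ⟨not_lt.1 c1, not_lt.1 c2⟩
  have hmem : ∀ z : ℂ, x₁ < z.re → z.re < x₂ →
      Function.update P₀ j.castSucc z ∈ Omt a A s p := by
    intro z h1 h2
    have h3 := hI z.re h1 h2
    have h4 := (Pz_mem (a := a) (A := A) (s := s) (p := p) (w := w)
      (j.insertNth z.im θ')).2 h3
    rwa [Pz_insert, Complex.re_add_im] at h4
  have hFd : DifferentiableOn ℂ F {z : ℂ | x₁ < z.re ∧ z.re < x₂} := by
    have hu : Differentiable ℂ (fun z : ℂ => Function.update P₀ j.castSucc z) := by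
      intro z
      exact (hasFDerivAt_update P₀ z).differentiableAt
    apply DifferentiableOn.mul
    · exact hh.comp hu.differentiableOn (fun z hz => hmem z hz.1 hz.2)
    · exact ((EJ_diff J).comp hu).differentiableOn
  have hFp : ∀ z : ℂ, x₁ < z.re → z.re < x₂ → F (z + 2 * Real.pi * Complex.I) = F z := by
    intro z h1 h2
    have h3 : Function.update P₀ j.castSucc (z + 2 * Real.pi * Complex.I) =
        tE (Pi.single j 1) (Function.update P₀ j.castSucc z) := by
      rw [tE_single, Function.update_self, Function.update_idem]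
    simp only [hF]
    rw [h3, (hinv _ (hmem z h1 h2)).2, EJ_tE]
  have hm := hPVL x₁ x₂ F hFd hFp x' (X j) hx3 hx4 hx1 hx2
  have e1 : ∀ t : ℝ, Pz (Function.update X j x') (j.insertNth t θ') w =
      Function.update P₀ j.castSucc (x' + t * Complex.I) := fun t => Pz_insert j X w θ' x' t
  have e2 : ∀ t : ℝ, Pz X (j.insertNth t θ') w =
      Function.update P₀ j.castSucc (X j + t * Complex.I) := by
    intro t
    have := Pz_insert j X w θ' (X j) t
    rwa [Function.update_eq_self] at this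
  simp only [e1, e2]
  exact hm

end Pool.Agent.Helper9.AB.MH1
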