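import Pool.Agent.Helper15.AB.GoalsT

open MeasureTheory Set Filter Topology

noncomputable section

namespace Pool.Agent.Helper9.AB

open Pool.Agent.Helper24.AB Pool.Agent.Helper15.AB

theorem box_meas : MeasurableSet Box := by
  have h : Box = ⋂ i : Fin 4, ({P : V4 | 0 ≤ (P i).im} ∩ {P : V4 | (P i).im < 2 * Real.pi}) := by
    ext P
    simp [Box]
  rw [h]
  refine MeasurableSet.iInter fun i => ?_
  have hc : Measurable fun P : V4 => (P i).im :=
    (Complex.continuous_im.comp (continuous_apply i)).measurable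
  exact (measurableSet_le measurable_const hc).inter (measurableSet_lt hc measurable_const)

theorem cov (hDETR : S_DETR) (hGRL : S_GRL) (hFND : S_FND) (hINVF : S_INVF) (hCLW : S_CLW) :
    S_COV := by
  intro η a r W Θ hW hΘ E _ _ F
  obtain ⟨hWo, -, -, hWinv, -⟩ := hCLW η a r W hW
  obtain ⟨-, -, -, -, hUinv, -, -⟩ := hGRL
  have hWU : W ⊆ Unb η := subset_closure.trans hW.sub
  have hinvT : ∀ P ∈ Unb η, ∀ P', GamRel P P' → Θ P' = Θ P :=
    hINVF (Unb η) Θ (fun P P' h hP => hUinv η P P' h hP) fun P hP => ⟨hΘ.inv_g P hP, hΘ.inv_t P hP⟩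
  have himg : Θ '' W = Θ '' (W ∩ Box) := by
    apply Subset.antisymm
    · rintro _ ⟨P, hP, rfl⟩
      obtain ⟨P', hB, hG⟩ := hFND.1 P
      exact ⟨P', ⟨hWinv P P' hG hP, hB⟩, hinvT P (hWU hP) P' hG⟩
    · exact image_mono inter_subset_left
  have hmeas : MeasurableSet (W ∩ Box) := hWo.measurableSet.inter box_meas
  have hinj : InjOn Θ (W ∩ Box) := by
    intro P hP P' hP' h
    exact (hFND.2 P hP.2 P' hP'.2 (hΘ.inj P (hWU hP.1) P' (hWU hP'.1) h)).symm
  have hder : ∀ P ∈ W ∩ Box, HasFDerivWithinAt Θ ((fderiv ℂ Θ P).restrictScalars ℝ) (W ∩ Box) P := by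
    intro P hP
    have hopen : W ∈ 𝓝 P := hWo.mem_nhds hP.1
    have h1 : DifferentiableAt ℂ Θ P := (hΘ.holo.mono hWU).differentiableAt hopen
    exact (h1.hasFDerivAt.restrictScalars ℝ).hasFDerivWithinAt
  have hdet : ∀ P : V4, |((fderiv ℂ Θ P).restrictScalars ℝ).det| = ‖(fderiv ℂ Θ P).det‖ ^ 2 := by
    intro P
    rw [hDETR, abs_of_nonneg (by positivity)]
  rw [himg]
  constructor
  · rw [integrableOn_image_iff_integrableOn_abs_det_fderiv_smul volume hmeas hder hinj]
    simp only [hdet]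
  · rw [integral_image_eq_integral_abs_det_fderiv_smul volume hmeas hder hinj]
    simp only [hdet]

end Pool.Agent.Helper9.AB
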