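import Pool.Agent.Helper15.AB.GoalsE

noncomputable section

namespace Pool.Agent.Helper9.AB

open Pool.Agent.Helper24.AB Pool.Agent.Helper15.AB

theorem lam_pos : 0 < lam := by
  unfold lam
  have := Real.sqrt_nonneg 5
  linarith

theorem exp_kap : Real.exp (kap * (2 * Real.pi)) = lam := by
  unfold kap
  rw [div_mul_cancel₀ _ (by positivity), Real.exp_log lam_pos]

theorem xp_gE (P : V4) : xp (gE P) = lam * xp P := by
  have h5 : Real.sqrt 5 * Real.sqrt 5 = 5 := Real.mul_self_sqrt (by norm_num)
  have hs : Real.sqrt 5 ≠ 0 := by positivity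
  simp only [xp, gE, Equiv.coe_fn_mk, Matrix.cons_val_zero, Matrix.cons_val_one, Complex.add_re,
    Complex.mul_re, Complex.re_ofNat, Complex.im_ofNat, zero_mul, sub_zero, ph', lam]
  rw [mul_div_assoc', div_left_inj' hs]
  linear_combination (-(P 1).re / 4) * h5

theorem lam_inv : lam⁻¹ = (3 - Real.sqrt 5) / 2 := by
  have h5 : Real.sqrt 5 * Real.sqrt 5 = 5 := Real.mul_self_sqrt (by norm_num)
  apply inv_eq_of_mul_eq_one_right
  unfold lam
  nlinarith

theorem xm_gE (P : V4) : xm (gE P) = lam⁻¹ * xm P := by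
  have h5 : Real.sqrt 5 * Real.sqrt 5 = 5 := Real.mul_self_sqrt (by norm_num)
  have hs : Real.sqrt 5 ≠ 0 := by positivity
  rw [lam_inv]
  simp only [xm, gE, Equiv.coe_fn_mk, Matrix.cons_val_zero, Matrix.cons_val_one, Complex.add_re,
    Complex.mul_re, Complex.re_ofNat, Complex.im_ofNat, zero_mul, sub_zero, ph]
  rw [mul_div_assoc', div_left_inj' hs]
  linear_combination ((P 1).re / 4) * h5

theorem inv : S_INV := by
  intro a A s p hp P
  have h3 : gE P 3 = P 3 + 2 * Real.pi * Complex.I := rfl
  have h3re : (gE P 3).re = (P 3).re := by rw [h3]; simp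
  have h3im : (gE P 3).im = (P 3).im + 2 * Real.pi := by rw [h3]; simp
  have hx0 : x0 (gE P) = x0 P := rfl
  have hyp : ypf p (gE P) = ypf p P := by
    unfold ypf
    rw [h3im, xp_gE, h3, hp]
    have he : Real.exp (-(kap * ((P 3).im + 2 * Real.pi))) =
        Real.exp (-(kap * (P 3).im)) * lam⁻¹ := by
      rw [← exp_kap, ← Real.exp_neg, ← Real.exp_add]
      congr 1; ring
    rw [he]
    have := lam_pos.ne'
    field_simp
  have hym : ymf (gE P) = ymf P := by
    unfold ymf
    rw [h3im, xm_gE]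
    have he : Real.exp (kap * ((P 3).im + 2 * Real.pi)) = Real.exp (kap * (P 3).im) * lam := by
      rw [← exp_kap, ← Real.exp_add]
      congr 1; ring
    rw [he]
    have := lam_pos.ne'
    field_simp
  constructor
  · unfold rfun
    rw [hyp, hym, hx0, h3re]
  · intro k
    have k3 : tE k P 3 = P 3 := rfl
    have k0 : (tE k P 0).re = (P 0).re := by simp [tE]
    have k1 : (tE k P 1).re = (P 1).re := by simp [tE]
    have k2 : (tE k P 2).re = (P 2).re := by simp [tE]
    unfold rfun ypf ymf xp xm x0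
    rw [k3, k0, k1, k2]

end Pool.Agent.Helper9.AB
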