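import Pool.Agent.Helper24.AB.NT.Goals

noncomputable section

namespace Pool.Agent.Helper9.AB

open Pool.Agent.Helper24.AB

/-- weight -/
def wt (c : Fin 5) : ℝ := if c ≠ 0 then 1 / 40 else 1

theorem wt_sum : ∑ c : Fin 5, wt c = 11 / 10 := by
  simp [wt, Fin.sum_univ_five]
  norm_num

theorem wt_nonneg (c : Fin 5) : 0 ≤ wt c := by
  unfold wt; split_ifs <;> norm_num

theorem cnt : S_CNT := by
  intro K M
  classical
  have h1 : ∑ d : Fin K → Fin 5, ∏ i, wt (d i) = (11 / 10) ^ K := by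
    have h := Finset.prod_univ_sum (fun _ : Fin K => (Finset.univ : Finset (Fin 5)))
      (fun _ c => wt c)
    rw [Fintype.piFinset_univ] at h
    rw [← h]
    simp [wt_sum, div_pow]
  set A : Finset (Fin K → Fin 5) := Finset.univ.filter fun d : Fin K → Fin 5 =>
    (Finset.univ.filter fun i => d i ≠ 0).card ≤ M with hA
  have h2 : ∀ d ∈ A, (1 / 40 : ℝ) ^ M ≤ ∏ i, wt (d i) := by
    intro d hd
    rw [hA, Finset.mem_filter] at hd
    have h3 : ∏ i, wt (d i) = (1 / 40 : ℝ) ^ (Finset.univ.filter fun i => d i ≠ 0).card := by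
      unfold wt
      rw [Finset.prod_ite]
      simp
    rw [h3]
    exact pow_le_pow_of_le_one (by norm_num) (by norm_num) hd.2
  have h4 : (A.card : ℝ) * (1 / 40) ^ M ≤ (11 / 10) ^ K := by
    calc (A.card : ℝ) * (1 / 40) ^ M = ∑ _d ∈ A, (1 / 40 : ℝ) ^ M := by
          rw [Finset.sum_const, nsmul_eq_mul]
      _ ≤ ∑ d ∈ A, ∏ i, wt (d i) := Finset.sum_le_sum h2
      _ ≤ ∑ d : Fin K → Fin 5, ∏ i, wt (d i) := by
          apply Finset.sum_le_sum_of_subset_of_nonneg (Finset.subset_univ _)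
          intro d _ _
          exact Finset.prod_nonneg fun i _ => wt_nonneg _
      _ = (11 / 10) ^ K := h1
  have h5 : (A.card : ℝ) = (A.card : ℝ) * (1 / 40) ^ M * 40 ^ M := by
    rw [mul_assoc, ← mul_pow]; norm_num
  rw [h5]
  exact mul_le_mul_of_nonneg_right h4 (by positivity)

end Pool.Agent.Helper9.AB
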